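import Mathlib
import Pool.Agent.Lib.MP_051125_co_h83.Defs
import Pool.Agent.Lib.MP_051125_co_h83.MainW

/-!
# The shortest monochromatic odd cycle has length `O(n ^ 2)`

`f n` is the least `m` such that every `n`-colouring of the edges of `K_{2^n+1}` has a
monochromatic odd cycle of length at most `m`.
-/

namespace Pool.Agent.Results.MP_051125_co.QuadraticUpperBound

open MP051125H83

theorem result (n : ℕ) :
    OddCycleAtMost n (f n) ∧ f n ≤ 480 * n ^ 2 + 212 * n + 13 :=
  ⟨Nat.sInf_mem (s := {m | OddCycleAtMost n m}) ⟨_, MP051125H69.oddCycleAtMost_Qn n⟩,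
    Nat.sInf_le (MP051125H69.oddCycleAtMost_Qn n)⟩

end Pool.Agent.Results.MP_051125_co.QuadraticUpperBound
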